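import Pool.Agent.Work.MP_db4788_co.Main

/-! A linear gain: lists of size `5 m - k` suffice as soon as `m ≥ C k`. -/

set_option autoImplicit false
set_option linter.unusedSectionVars false
open Finset

namespace Pool.Agent.PL5

variable {V : Type} [DecidableEq V] {G : SimpleGraph V} [DecidableRel G.Adj]

/-- A minimal uncolourable set for lists of size `5 m - k`. -/
structure MinCexK (G : SimpleGraph V) [DecidableRel G.Adj] (V0 : Finset V) (L : V → Finset ℕ)
    (m k : ℕ) : Prop where
  mf : MinorFree G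
  size : ∀ v ∈ V0, (L v).card + k = 5 * m
  two : 2 * k ≤ m
  pos : 0 < k
  ncol : ¬ Col G V0 L m
  min : ∀ S ⊆ V0, S ≠ V0 → Col G S L m

/-- Amplification of the slack. -/
theorem amp {n M : ℕ} (hR : Robust G n ((n + 1) * 2 ^ n + 1) M) (j : ℕ) :
    Robust G n j (M + j * (M + 2 ^ n)) := by
  classical
  induction j with
  | zero => simpa using hR.mono_k (Nat.zero_le _)
  | succ j ih =>
    intro H r O hA hC hn m hm L hL
    have e0 : (j + 1) * (M + 2 ^ n) = j * (M + 2 ^ n) + M + 2 ^ n := by ring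
    have hE : 2 ^ H.card ≤ 2 ^ n := Nat.pow_le_pow_right (by norm_num) hn
    obtain ⟨L', hL'⟩ := hL.exact (fun v hv => by have := hC.r_le hv; omega)
    have ha : ∀ v ∈ H, (L' v).card = (5 - r v) * m := fun v hv => by
      have h1 := (hL' v hv).2
      have h2 := hC.r_le hv
      rw [Nat.sub_mul]; omega
    obtain ⟨P, hP⟩ := split_lists H L' (fun v => 5 - r v) m M (by omega) ha
    generalize 2 ^ n = E at *
    obtain ⟨m1, hm1⟩ : ∃ m1, m = m1 + M + E := ⟨m - M - E, by omega⟩
    have hL1 : Lists H r m1 (fun v => L' v \ P) := fun v hv => by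
      have h1 := (hP v hv).2
      have h2 := hC.r_le hv
      have h3 := ha v hv
      have h4 := card_sdiff_add_card_inter (L' v) P
      obtain ⟨a, ha'⟩ : ∃ a, 5 = r v + 1 + a := ⟨4 - r v, by omega⟩
      have e : 5 - r v = a + 1 := by omega
      simp only [e] at h1 h3
      have e5 : 5 * m1 = r v * m1 + (a + 1) * m1 := by rw [ha']; ring
      rw [hm1] at h3
      have e6 : (a + 1) * (m1 + M + E) = (a + 1) * m1 + (a + 1) * M + E + a * E := by ring
      show 5 * m1 ≤ (L' v \ P).card + r v * m1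
      omega
    have hL2 : Lists H r M (fun v => L' v ∩ P) := fun u hu => by
      have h1 := (hP u hu).1
      have h2 := hC.r_le hu
      simp only [Nat.sub_mul] at h1
      have h3 : r u * M ≤ 5 * M := Nat.mul_le_mul_right _ (by omega)
      show 5 * M ≤ (L' u ∩ P).card + r u * M
      omega
    obtain ⟨φ1, a1, a2, a3⟩ := ih H r O hA hC hn m1 (by omega) _ hL1
    obtain ⟨φ2, b1, b2, b3⟩ := hR H r O hA hC hn M le_rfl _ hL2
    have d1 : ∀ u ∈ H, ∀ w ∈ H, Disjoint (φ1 u) (φ2 w) := fun u hu w hw =>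
      (sdiff_disjoint (s := P) (t := L' u)).mono (a1.1 u hu)
        ((b1.1 w hw).trans inter_subset_right)
    have hval : Valid G H L' (fun u => φ1 u ∪ φ2 u) := by
      refine ⟨fun u hu => union_subset ((a1.1 u hu).trans sdiff_subset)
        ((b1.1 u hu).trans inter_subset_left), fun u hu w hw huw => ?_⟩
      show Disjoint (φ1 u ∪ φ2 u) (φ1 w ∪ φ2 w)
      rw [disjoint_union_left, disjoint_union_right, disjoint_union_right]
      exact ⟨⟨a1.2 u hu w hw huw, d1 u hu w hw⟩, (d1 w hw u hu).symm, b1.2 u hu w hw huw⟩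
    have hcu : ∀ u ∈ H, (φ1 u ∪ φ2 u).card = (φ1 u).card + (φ2 u).card := fun u hu =>
      card_union_of_disjoint (d1 u hu u hu)
    have hQ : H.filter (InTV G H r) ⊆ H := filter_subset _ _
    have hQc : (H.filter (InTV G H r)).card * E ≤ n * E :=
      Nat.mul_le_mul_right _ ((card_le_card hQ).trans hn)
    have e7 : (n + 1) * E = n * E + E := by ring
    obtain ⟨φ', c1, c2, c3⟩ := fix_tri (H := H) (m := m) (E := E) (fun _ => m + (j + 1)) hQ
      (by omega) (triSys_tv hC (fun u hu => (hL' u hu).2)) hval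
      (fun u hu => by
        have h1 := hcu u (hQ hu)
        have h2 := a2 u (hQ hu)
        have h3 := b2 u (hQ hu)
        show m - E ≤ (φ1 u ∪ φ2 u).card
        omega)
      (fun u hu => by
        obtain ⟨h1, h2⟩ := mem_sdiff.1 hu
        have hn' : ¬ InTV G H r u := fun h6 => h2 (mem_filter.2 ⟨h1, h6⟩)
        have h3 := hcu u h1
        have h4 := a3 u h1 hn'
        have h5 := b3 u h1 hn'
        show m + (j + 1) + (H.filter (InTV G H r)).card * E ≤ (φ1 u ∪ φ2 u).card
        omega)
    refine ⟨φ', c1.mono_list (fun u hu => (hL' u hu).1), fun u hu => ?_, fun u hu hn => ?_⟩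
    · by_cases h : u ∈ H.filter (InTV G H r)
      · exact c2 u h
      · exact le_trans (by omega) (c3 u (mem_sdiff.2 ⟨hu, h⟩))
    · exact c3 u (mem_sdiff.2 ⟨hu, fun h => hn (mem_filter.1 h).2⟩)

theorem qt_redK {V0 : Finset V} {L : V → Finset ℕ} {m k : ℕ} (h : MinCexK G V0 L m k)
    {a b c s : V} (ha : a ∈ V0) (hb : b ∈ V0) (hc : c ∈ V0) (hs : s ∈ V0)
    (hab : G.Adj a b) (hac : G.Adj a c) (hbc : G.Adj b c) (has : G.Adj a s)
    (hbs : ¬ G.Adj b s) (hsb : s ≠ b) (hsc : s ≠ c)
    (da : deg G V0 a = 4) (db : deg G V0 b = 4) (dc : deg G V0 c = 4) (ds : deg G V0 s = 4) :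
    False := by
  have hm := h.two
  set S : Finset V := insert b (insert c (insert a {s})) with hS
  have hSV : S ⊆ V0 := by
    intro x hx
    simp only [hS, mem_insert, mem_singleton] at hx
    rcases hx with rfl | rfl | rfl | rfl <;> assumption
  have n1 : a ∉ ({s} : Finset V) := by simpa using has.ne
  have n2 : c ∉ (insert a {s} : Finset V) := by simp [hac.ne', hsc.symm]
  have n3 : b ∉ (insert c (insert a {s}) : Finset V) := by simp [hbc.ne, hab.ne', hsb.symm]
  have dS : ∀ v, deg G S v = (((if G.Adj v s then 1 else 0) + if G.Adj v a then 1 else 0) +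
      if G.Adj v c then 1 else 0) + if G.Adj v b then 1 else 0 := fun v => by
    rw [hS, deg_insert n3, deg_insert n2, deg_insert n1, deg_singleton]
  obtain ⟨φ, hφ, hφm⟩ := (h.min (V0 \ S) sdiff_subset (fun e => by
    have : a ∈ V0 \ S := by rw [e]; exact ha
    exact (mem_sdiff.1 this).2 (by simp [hS]))).exact
  set L' := rem G (V0 \ S) L φ with hL'
  have key : ∀ v ∈ V0, deg G V0 v = 4 → m + deg G S v * m ≤ (L' v).card + k := fun v hv dv => by
    have h1 := rem_card (G := G) L (fun w hw => (hφm w hw).le) v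
    have h2 := h.size v hv
    have h3 := deg_sdiff_add (G := G) hSV v
    have h4 : (deg G (V0 \ S) v + deg G S v) * m = 4 * m := by rw [h3, dv]
    rw [add_mul] at h4
    rw [← hL'] at h1
    omega
  have ka := key a ha da
  have kb := key b hb db
  have kc := key c hc dc
  have ks := key s hs ds
  rw [dS, if_pos has, if_neg (G.loopless.irrefl a), if_pos hac, if_pos hab] at ka
  rw [dS, if_neg hbs, if_pos hab.symm, if_pos hbc, if_neg (G.loopless.irrefl b)] at kb
  rw [dS, if_pos hac.symm, if_neg (G.loopless.irrefl c), if_pos hbc.symm] at kc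
  rw [dS, if_neg (G.loopless.irrefl s), if_pos has.symm] at ks
  obtain ⟨Lb, hLb, cLb⟩ := exists_subset_card_eq (s := L' b) (n := 3 * m - k) (by omega)
  obtain ⟨F, hFa, cF, hFb⟩ : ∃ F ⊆ L' a, F.card = k ∧ Disjoint F Lb := avoid _ _ _ (by omega)
  obtain ⟨αs, s1, s2, s3⟩ := avoid (L' s) F m (by
    have : 1 * m ≤ (0 + 1 + (if G.Adj s c then 1 else 0) + if G.Adj s b then 1 else 0) * m :=
      Nat.mul_le_mul_right m (by omega)
    omega)
  obtain ⟨αa, a1, a2, a3⟩ := exists_subsuperset_card_eq
    (show F ⊆ L' a \ αs from subset_sdiff.2 ⟨hFa, s3.symm⟩)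
    (show F.card ≤ m by omega)
    (show m ≤ (L' a \ αs).card by have := le_card_sdiff αs (L' a); omega)
  obtain ⟨αc, c1, c2, c3, c4⟩ : ∃ αc ⊆ L' c, αc.card = m ∧ Disjoint αc αa ∧
      (G.Adj c s → Disjoint αc αs) := by
    by_cases hcs : G.Adj c s
    · rw [if_pos hcs] at kc
      obtain ⟨α, h1, h2, h3⟩ := avoid (L' c) (αa ∪ αs) m (by
        have := card_union_le αa αs
        omega)
      exact ⟨α, h1, h2, h3.mono_right subset_union_left,
        fun _ => h3.mono_right subset_union_right⟩
    · rw [if_neg hcs] at kc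
      obtain ⟨α, h1, h2, h3⟩ := avoid (L' c) αa m (by omega)
      exact ⟨α, h1, h2, h3, fun hh => absurd hh hcs⟩
  obtain ⟨αb, b1, b2, b3⟩ := avoid Lb ((αa \ F) ∪ αc) m (by
    have h1 := card_union_le (αa \ F) αc
    have h2 := card_sdiff_add_card_eq_card a1
    omega)
  have b4 : Disjoint αb αa := by
    rw [disjoint_left]
    intro x hx hxa
    by_cases hxf : x ∈ F
    · exact disjoint_left.1 hFb hxf (b1 hx)
    · exact disjoint_left.1 b3 hx (mem_union_left _ (mem_sdiff.2 ⟨hxa, hxf⟩))
  have v0 : Valid G {s} L' (fun _ => αs) := valid_singleton s1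
  obtain ⟨χ1, v1, e1, f1⟩ := valid_insert n1 v0 (a2.trans sdiff_subset) (fun w _ _ =>
    disjoint_of_subset_left a2 sdiff_disjoint)
  have e1s : χ1 s = αs := e1 s (mem_singleton_self s)
  obtain ⟨χ2, v2, e2, f2⟩ := valid_insert n2 v1 c1 (fun w hw hcw => by
    simp only [mem_insert, mem_singleton] at hw
    rcases hw with rfl | rfl
    · rw [f1]; exact c3
    · rw [e1s]; exact c4 hcw)
  have e2a : χ2 a = αa := by rw [e2 a (by simp), f1]
  have e2s : χ2 s = αs := by rw [e2 s (by simp), e1s]
  obtain ⟨χ3, v3, e3, f3⟩ := valid_insert n3 v2 (b1.trans hLb) (fun w hw hbw => by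
    simp only [mem_insert, mem_singleton] at hw
    rcases hw with rfl | rfl | rfl
    · rw [f2]; exact b3.mono_right subset_union_right
    · rw [e2a]; exact b4
    · exact absurd hbw hbs)
  obtain ⟨χ, w1, w2, w3⟩ := glue_rem sdiff_disjoint hφ v3
  rw [sdiff_union_of_subset hSV] at w1
  refine h.ncol ⟨χ, w1, fun v hv => ?_⟩
  by_cases hvS : v ∈ S
  · rw [w3 v hvS]
    simp only [hS, mem_insert, mem_singleton] at hvS
    rcases hvS with rfl | rfl | rfl | rfl
    · rw [f3, b2]
    · rw [e3 _ (by simp), f2, c2]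
    · rw [e3 _ (by simp), e2a, a3]
    · rw [e3 _ (by simp), e2s, s2]
  · rw [w2 v (mem_sdiff.2 ⟨hv, hvS⟩), hφm v (mem_sdiff.2 ⟨hv, hvS⟩)]

theorem qt_of_triK {V0 O : Finset V} {L : V → Finset ℕ} {m k : ℕ} (h : MinCexK G V0 L m k)
    (hO : O ⊆ V0) (hc : Conn G O) {a b c : V} (ha : a ∈ V0 \ O) (hb : b ∈ V0 \ O)
    (hcc : c ∈ V0 \ O) (hab : G.Adj a b) (hac : G.Adj a c) (hbc : G.Adj b c)
    (oa : deg G O a = 2) (ob : deg G O b = 2) (oc : deg G O c = 2)
    (da : deg G V0 a = 4) (db : deg G V0 b = 4) (dc : deg G V0 c = 4) :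
    QT G V0 {a, b, c} := by
  have ha0 := (mem_sdiff.1 ha).1
  have hb0 := (mem_sdiff.1 hb).1
  have hc0 := (mem_sdiff.1 hcc).1
  have haO := (mem_sdiff.1 ha).2
  have hbO := (mem_sdiff.1 hb).2
  have hcO := (mem_sdiff.1 hcc).2
  have hout : ∀ x ∈ O, x ∈ V0 \ ({a, b, c} : Finset V) := fun x hx =>
    mem_sdiff.2 ⟨hO hx, by
      simp only [mem_insert, mem_singleton]
      rintro (rfl | rfl | rfl) <;> contradiction⟩
  refine ⟨?_, ?_, ?_, ?_, ?_, ?_⟩
  · intro x hx
    simp only [mem_insert, mem_singleton] at hx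
    rcases hx with rfl | rfl | rfl <;> assumption
  · exact card_eq_three.2 ⟨a, b, c, hab.ne, hac.ne, hbc.ne, rfl⟩
  · intro x hx y hy hxy
    simp only [mem_insert, mem_singleton] at hx hy
    rcases hx with rfl | rfl | rfl <;> rcases hy with rfl | rfl | rfl <;>
      first | exact absurd rfl hxy | assumption | (apply SimpleGraph.Adj.symm; assumption)
  · intro x hx
    simp only [mem_insert, mem_singleton] at hx
    rcases hx with rfl | rfl | rfl <;> assumption
  · intro s hs ht ds
    have hs0 := (mem_sdiff.1 hs).1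
    have hsn := (mem_sdiff.1 hs).2
    simp only [mem_insert, mem_singleton, not_or] at hsn
    obtain ⟨hsa, hsb, hsc⟩ := hsn
    by_cases has : G.Adj a s <;> by_cases hbs : G.Adj b s <;> by_cases hcs : G.Adj c s
    · have hsO : s ∈ O := by
        rcases qt_nb hO hb hcc hab hac hbc.ne oa da s hs0 has with h1 | h1 | h1
        · exact absurd h1 hsb
        · exact absurd h1 hsc
        · exact h1
      obtain ⟨xa, xa1, xa2, xa3⟩ := other_nbr (s := s) oa
      obtain ⟨xb, xb1, xb2, xb3⟩ := other_nbr (s := s) ob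
      obtain ⟨xc, xc1, xc2, xc3⟩ := other_nbr (s := s) oc
      have huniq : ∀ t ∈ O, ∀ t' ∈ O, G.Adj s t → G.Adj s t' → t = t' := by
        intro t ht t' ht' h1 h2
        by_contra hne
        have n1 := (mem_sdiff.1 (hout t ht)).2
        have n2 := (mem_sdiff.1 (hout t' ht')).2
        have hcard : (insert t (insert t' ({a, b, c} : Finset V))).card = 5 := by
          rw [card_insert_of_notMem (by
            rw [mem_insert, not_or]; exact ⟨hne, n1⟩), card_insert_of_notMem n2,
            card_eq_three.2 ⟨a, b, c, hab.ne, hac.ne, hbc.ne, rfl⟩]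
        have := le_deg (G := G) (S := V0) (N := insert t (insert t' ({a, b, c} : Finset V)))
          (v := s) (fun u hu => by
            simp only [mem_insert, mem_singleton] at hu
            rcases hu with rfl | rfl | rfl | rfl | rfl
            · exact ⟨hO ht, h1⟩
            · exact ⟨hO ht', h2⟩
            · exact ⟨ha0, has.symm⟩
            · exact ⟨hb0, hbs.symm⟩
            · exact ⟨hc0, hcs.symm⟩)
        omega
      obtain ⟨t, ht, hst⟩ := twopart hc hsO xa1 xa2
      have htE := comp_subset _ _ ht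
      have inK : ∀ x ∈ O, x ≠ s → x ∈ comp G (O.erase s) t := fun x hx hxs => by
        obtain ⟨t', ht', hst'⟩ := twopart hc hsO hx hxs
        have e : t' = t := huniq t' (mem_of_mem_erase (comp_subset _ _ ht')) t
          (mem_of_mem_erase htE) hst' hst
        rw [e] at ht'
        exact mem_comp.2 ⟨mem_erase.2 ⟨hxs, hx⟩, (mem_comp.1 ht').2.symm⟩
      exact k5_tri h.mf haO hbO hcO hsO (comp_subset _ _) (conn_comp htE) hab hac hbc has hbs hcs
        ⟨xa, inK xa xa1 xa2, xa3⟩ ⟨xb, inK xb xb1 xb2, xb3⟩ ⟨xc, inK xc xc1 xc2, xc3⟩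
        ⟨t, self_mem_comp htE, hst⟩
    · exact qt_redK h ha0 hc0 hb0 hs0 hac hab hbc.symm has hcs hsc hsb da dc db ds
    · exact qt_redK h ha0 hb0 hc0 hs0 hab hac hbc has hbs hsb hsc da db dc ds
    · exact qt_redK h ha0 hb0 hc0 hs0 hab hac hbc has hbs hsb hsc da db dc ds
    · exact qt_redK h hb0 ha0 hc0 hs0 hab.symm hbc hac hbs has hsa hsc db da dc ds
    · exact qt_redK h hb0 ha0 hc0 hs0 hab.symm hbc hac hbs has hsa hsc db da dc ds
    · exact qt_redK h hc0 ha0 hb0 hs0 hac.symm hbc.symm hab hcs has hsa hsb dc da db ds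
    · obtain ⟨w, hw, hsw⟩ := touch_left.1 ht
      simp only [mem_insert, mem_singleton] at hw
      rcases hw with rfl | rfl | rfl
      · exact has hsw.symm
      · exact hbs hsw.symm
      · exact hcs hsw.symm
  · obtain ⟨x, hx, y, hy, hxy, hax, hay, _⟩ := two_nbrs oa
    by_contra hne
    have hthird : ∀ v ∈ ({a, b, c} : Finset V), ∀ z ∈ O, G.Adj v z → z = x ∨ z = y := by
      intro v hv z hz hvz
      by_contra hz'
      push Not at hz'
      exact hne ⟨x, hout x hx, y, hout y hy, z, hout z hz, hxy, hz'.1.symm, hz'.2.symm,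
        touch_left.2 ⟨a, by simp, hax.symm⟩, touch_left.2 ⟨a, by simp, hay.symm⟩,
        touch_left.2 ⟨v, hv, hvz.symm⟩⟩
    have both : ∀ v ∈ ({a, b, c} : Finset V), deg G O v = 2 → G.Adj v x ∧ G.Adj v y := by
      intro v hv dv
      obtain ⟨p, hp, q, hq, hpq, h1, h2, _⟩ := two_nbrs dv
      rcases hthird v hv p hp h1 with rfl | rfl <;> rcases hthird v hv q hq h2 with rfl | rfl
      · exact absurd rfl hpq
      · exact ⟨h1, h2⟩
      · exact ⟨h2, h1⟩
      · exact absurd rfl hpq
    obtain ⟨bx, by'⟩ := both b (by simp) ob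
    obtain ⟨cx, cy⟩ := both c (by simp) oc
    obtain ⟨w, hw, hxw⟩ := twopart hc hx hy hxy.symm
    have hyE : y ∈ O.erase x := mem_erase.2 ⟨hxy.symm, hy⟩
    exact k5_tri h.mf haO hbO hcO hx (comp_subset _ _) (conn_comp hyE) hab hac hbc hax bx cx
      ⟨y, self_mem_comp hyE, hay⟩ ⟨y, self_mem_comp hyE, by'⟩ ⟨y, self_mem_comp hyE, cy⟩
      ⟨w, hw, hxw⟩

theorem hyp_contraK {V0 W' : Finset V} {L : V → Finset ℕ} {m k N M : ℕ} (h : MinCexK G V0 L m k)
    (hR : Robust G N ((N + 1) * k) M) (hm : M + k ≤ m) (hW : W' ⊆ V0) (hc : Conn G (V0 \ W'))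
    (hN : W'.card ≤ N) (hne : W'.Nonempty)
    (hlt : ∀ T ⊆ W', T.Nonempty →
      100000000 * dfc G (fun v => deg G (V0 \ W') v) T < ((T \ Qset G V0).card : ℤ)) :
    False := by
  classical
  set r : V → ℕ := fun v => deg G (V0 \ W') v with hr
  have hm2 := h.two
  have hA : Apex G W' r (V0 \ W') := ⟨hc, sdiff_disjoint, fun v _ hv => deg_pos.1 hv⟩
  have hC : InClass G W' r := fun T hT => by
    rcases T.eq_empty_or_nonempty with rfl | hT'
    · simp [dfc_empty]
    · have h1 := hlt T hT hT'
      have h2 : (T \ Qset G V0).card ≤ T.card := card_le_card sdiff_subset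
      omega
  by_cases hall : ∀ v ∈ W', InTV G W' r v
  · obtain ⟨v, hv⟩ := hne
    obtain ⟨_, a, ha, b, hb, hva, hvb, hab, rv, ra, rb⟩ := hall v hv
    have d4 : ∀ {v a b : V}, v ∈ W' → a ∈ W' → b ∈ W' → G.Adj v a → G.Adj v b → G.Adj a b →
        r v = 2 → r a = 2 → r b = 2 → deg G V0 v = 4 := by
      intro v a b hv ha hb hva hvb hab rv ra rb
      have h1 := deg_sdiff_add (G := G) hW v
      have h2 : deg G W' v ≤ ({a, b} : Finset V).card := deg_le (fun u hu hvu => by
        rcases tt hC hv ha hb hva hvb hab rv ra rb (hall u hu) hvu.symm with rfl | rfl <;> simp)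
      have h3 : ({a, b} : Finset V).card ≤ deg G W' v := le_deg (fun u hu => by
        simp only [mem_insert, mem_singleton] at hu
        rcases hu with rfl | rfl
        · exact ⟨ha, hva⟩
        · exact ⟨hb, hvb⟩)
      rw [card_pair hab.ne] at h2 h3
      have h4 : deg G (V0 \ W') v = 2 := rv
      omega
    have mem : ∀ x ∈ W', x ∈ V0 \ (V0 \ W') := fun x hx =>
      mem_sdiff.2 ⟨hW hx, fun hh => (mem_sdiff.1 hh).2 hx⟩
    have hq := qt_of_triK h sdiff_subset hc (mem v hv) (mem a ha) (mem b hb) hva hvb hab rv ra rb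
      (d4 hv ha hb hva hvb hab rv ra rb) (d4 ha hv hb hva.symm hab hvb ra rv rb)
      (d4 hb hv ha hvb.symm hab.symm hva rb rv ra)
    have hsub : ({v, a, b} : Finset V) ⊆ W' := by
      intro x hx
      simp only [mem_insert, mem_singleton] at hx
      rcases hx with rfl | rfl | rfl <;> assumption
    have h1 := hlt {v, a, b} hsub ⟨v, by simp⟩
    have h2 : ({v, a, b} : Finset V) \ Qset G V0 = ∅ :=
      sdiff_eq_empty_iff_subset.2 (fun x hx => mem_Qset.2 ⟨hW (hsub hx), _, hq, hx⟩)
    rw [h2, dfc_tri r hva hab hvb, rv, ra, rb] at h1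
    simp at h1
  · push Not at hall
    obtain ⟨u, hu, hun⟩ := hall
    set TV : Finset V := W'.filter (fun v => InTV G W' r v) with hTV
    have mTV : ∀ v, v ∈ TV ↔ InTV G W' r v := fun v => by
      rw [hTV, mem_filter]; exact ⟨fun hh => hh.2, fun hh => ⟨hh.1, hh⟩⟩
    have hTVW : TV ⊆ W' := filter_subset _ _
    obtain ⟨φ, hφ, hφm⟩ := (h.min ((V0 \ W') ∪ TV)
      (union_subset sdiff_subset (hTVW.trans hW)) (fun e => by
        have : u ∈ (V0 \ W') ∪ TV := by rw [e]; exact hW hu
        rcases mem_union.1 this with h1 | h1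
        · exact (mem_sdiff.1 h1).2 hu
        · exact hun ((mTV u).1 h1))).exact
    set L' := rem G (V0 \ W') L φ with hL'
    have key : ∀ v ∈ W', 5 * m ≤ (L' v).card + r v * m + k := fun v hv => by
      have h1 := rem_card (G := G) (S := V0 \ W') L
        (fun w hw => (hφm w (mem_union_left _ hw)).le) v
      have h2 := h.size v (hW hv)
      rw [← hL'] at h1
      have h3 : r v = deg G (V0 \ W') v := rfl
      rw [h3]
      omega
    have hL : Lists W' r (m - k) L' := fun v hv => by
      have h1 := key v hv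
      have h2 := hC.r_le hv
      obtain ⟨j, rfl⟩ : ∃ j, m = j + k := ⟨m - k, by omega⟩
      rw [Nat.add_sub_cancel]
      rw [mul_add, mul_add] at h1
      have h3 : r v * k ≤ 3 * k := Nat.mul_le_mul_right k h2
      omega
    obtain ⟨ψ, v1, v2, v3⟩ := hR W' r _ hA hC hN (m - k) (by omega) L' hL
    have hφL : ∀ v ∈ TV, φ v ⊆ L' v := fun v hv c hc' =>
      mem_rem.2 ⟨hφ.1 v (mem_union_right _ hv) hc', fun w hw hvw hcw =>
        disjoint_left.1 (hφ.2 v (mem_union_right _ hv) w (mem_union_left _ hw) hvw) hc' hcw⟩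
    have hT : TriSys G TV L' (3 * m - k) (3 * m) := fun v hv => by
      obtain ⟨hvW, a, ha, b, hb, hva, hvb, hab, rv, ra, rb⟩ := (mTV v).1 hv
      have haT : a ∈ TV := (mTV a).2 ⟨ha, v, hvW, b, hb, hva.symm, hab, hvb, ra, rv, rb⟩
      have hbT : b ∈ TV := (mTV b).2 ⟨hb, v, hvW, a, ha, hvb.symm, hab.symm, hva, rb, rv, ra⟩
      refine ⟨a, haT, b, hbT, hva, hvb, hab, fun w hw hwv =>
        tt hC hvW ha hb hva hvb hab rv ra rb ((mTV w).1 hw) hwv, ?_, ?_⟩
      · have h1 := key v hvW
        rw [rv] at h1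
        omega
      · have d1 := hφ.2 v (mem_union_right _ hv) a (mem_union_right _ haT) hva
        have d2 := hφ.2 v (mem_union_right _ hv) b (mem_union_right _ hbT) hvb
        have d3 := hφ.2 a (mem_union_right _ haT) b (mem_union_right _ hbT) hab
        have c1 : (φ v ∪ φ a ∪ φ b).card = 3 * m := by
          rw [card_union_of_disjoint (disjoint_union_left.2 ⟨d2, d3⟩), card_union_of_disjoint d1,
            hφm v (mem_union_right _ hv), hφm a (mem_union_right _ haT),
            hφm b (mem_union_right _ hbT)]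
          ring
        rw [← c1]
        exact card_le_card (union_subset_union (union_subset_union (hφL v hv) (hφL a haT))
          (hφL b hbT))
    obtain ⟨ψ', w1, w2, w3⟩ := fix_tri (E := k) (m := m) (fun _ => m) hTVW (by omega) hT v1
      (fun v hv => v2 v (hTVW hv)) (fun v hv => by
        have h1 := v3 v (mem_sdiff.1 hv).1 (fun hh => (mem_sdiff.1 hv).2 ((mTV v).2 hh))
        have h2 : TV.card * k ≤ N * k :=
          Nat.mul_le_mul_right k ((card_le_card hTVW).trans hN)
        have h3 : (N + 1) * k = N * k + k := by ring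
        omega)
    obtain ⟨χ, x1, x2, x3⟩ := glue_rem (S := V0 \ W') (U := W') sdiff_disjoint
      (hφ.mono_set subset_union_left) w1
    rw [sdiff_union_of_subset hW] at x1
    refine h.ncol ⟨χ, x1, fun v hv => ?_⟩
    by_cases hvW : v ∈ W'
    · rw [x3 v hvW]
      by_cases hvT : v ∈ TV
      · exact w2 v hvT
      · exact w3 v (mem_sdiff.2 ⟨hvW, hvT⟩)
    · rw [x2 v (mem_sdiff.2 ⟨hv, hvW⟩), hφm v (mem_union_left _ (mem_sdiff.2 ⟨hv, hvW⟩))]

theorem hypK {V0 W : Finset V} {L : V → Finset ℕ} {m k N M : ℕ} (h : MinCexK G V0 L m k)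
    (hR : Robust G N ((N + 1) * k) M) (hm : M + k ≤ m) (hW : W ⊆ V0) (hc : Conn G (V0 \ W))
    (hN : W.card ≤ N) : ((W \ Qset G V0).card : ℤ) ≤ 100000000 * odef G V0 W := by
  classical
  set r : V → ℕ := fun v => deg G (V0 \ W) v with hr
  set g : Finset V → ℤ := fun T => 100000000 * dfc G r T - ((T \ Qset G V0).card : ℤ) with hg
  obtain ⟨S0, hS0, hmax0⟩ := exists_max_image W.powerset g ⟨∅, empty_mem_powerset _⟩
  obtain ⟨S, hS, hmax⟩ := exists_max_image (W.powerset.filter (fun T => g T = g S0))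
    Finset.card ⟨S0, mem_filter.2 ⟨hS0, rfl⟩⟩
  obtain ⟨hSW, hSg⟩ := mem_filter.1 hS
  rw [mem_powerset] at hSW
  have hle : ∀ T ⊆ W, g T ≤ g S := fun T hT => by
    rw [hSg]; exact hmax0 T (mem_powerset.2 hT)
  have hA : Apex G W r (V0 \ W) := ⟨hc, sdiff_disjoint, fun v _ hv => deg_pos.1 hv⟩
  have hatt : att G r S = S := by
    by_contra hne
    have h1 := dfc_att h.mf r hne
    have h2 := hle (att G r S) ((att_subset (G := G) r S).trans hSW)
    have h3 : (att G r S \ Qset G V0).card ≤ (S \ Qset G V0).card :=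
      card_le_card (sdiff_subset_sdiff (att_subset (G := G) r S) subset_rfl)
    simp only [hg] at h2
    omega
  have hAt : Attached G r S := by rw [← hatt]; exact attached_att r S
  by_cases hSe : S = W
  · have h1 := hle ∅ (empty_subset _)
    simp only [hg, dfc_empty, empty_sdiff, card_empty, hSe] at h1
    unfold odef
    rw [← hr]
    omega
  · exfalso
    have e : V0 \ (W \ S) = (V0 \ W) ∪ S := by
      ext x
      simp only [mem_sdiff, mem_union]
      constructor
      · rintro ⟨h1, h2⟩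
        by_cases hx : x ∈ S
        · exact Or.inr hx
        · exact Or.inl ⟨h1, fun hh => h2 ⟨hh, hx⟩⟩
      · rintro (⟨h1, h2⟩ | h1)
        · exact ⟨h1, fun hh => h2 hh.1⟩
        · exact ⟨hW (hSW h1), fun hh => hh.2 h1⟩
    refine hyp_contraK h hR hm (W' := W \ S) (sdiff_subset.trans hW)
      (by rw [e]; exact hA.conn_union hSW hAt)
      ((card_le_card sdiff_subset).trans hN)
      (sdiff_nonempty.2 (fun hh => hSe (Subset.antisymm hSW hh))) (fun T hT hTn => ?_)
    have hd : Disjoint S T := disjoint_sdiff.mono_right hT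
    have hsub : S ∪ T ⊆ W := union_subset hSW (hT.trans sdiff_subset)
    have h1 := hle _ hsub
    have h2 : g (S ∪ T) ≠ g S := fun hh => by
      have := hmax (S ∪ T) (mem_filter.2 ⟨mem_powerset.2 hsub, hh.trans hSg⟩)
      rw [card_union_of_disjoint hd] at this
      have := card_pos.2 hTn
      omega
    have h3 : dfc G (fun v => deg G (V0 \ (W \ S)) v) T = dfc G (addDeg G r S) T :=
      dfc_congr (fun v _ => by
        rw [e, deg_union (sdiff_disjoint.mono_right hSW)]; rfl)
    have h4 : ((S ∪ T) \ Qset G V0).card = (S \ Qset G V0).card + (T \ Qset G V0).card := by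
      rw [union_sdiff_distrib, card_union_of_disjoint
        (disjoint_of_subset_left sdiff_subset (disjoint_of_subset_right sdiff_subset hd))]
    have h5 := dfc_union (G := G) r hd
    simp only [hg] at h1 h2
    rw [h3]
    rw [h4, h5] at h1 h2
    push_cast at h1 h2
    omega

theorem MinCexK.conn {V0 : Finset V} {L : V → Finset ℕ} {m k : ℕ} (h : MinCexK G V0 L m k) :
    Conn G V0 := by
  have hne : V0.Nonempty := by
    rcases V0.eq_empty_or_nonempty with rfl | h1
    · exact absurd (col_empty L m) h.ncol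
    · exact h1
  obtain ⟨a, ha⟩ := hne
  by_cases he : comp G V0 a = V0
  · rw [← he]; exact conn_comp ha
  · exfalso
    have h1 := h.min _ (comp_subset V0 a) he
    have h2 := h.min (V0 \ comp G V0 a) sdiff_subset (fun e => by
      have : a ∈ V0 \ comp G V0 a := by rw [e]; exact ha
      exact (mem_sdiff.1 this).2 (self_mem_comp ha))
    have h3 := col_union_nonadj disjoint_sdiff (fun u hu w hw huw =>
      (mem_sdiff.1 hu).2 (comp_closed hw (mem_sdiff.1 hu).1 huw.symm)) h1 h2
    rw [union_sdiff_of_subset (comp_subset V0 a)] at h3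
    exact h.ncol h3

theorem MinCexK.two_le {V0 : Finset V} {L : V → Finset ℕ} {m k : ℕ} (h : MinCexK G V0 L m k) :
    2 ≤ V0.card := by
  by_contra hlt
  obtain ⟨a, ha⟩ := h.conn.1
  have e : V0 = {a} := eq_singleton_iff_unique_mem.2
    ⟨ha, fun x hx => card_le_one.1 (by omega) x hx a ha⟩
  have h1 := h.size a ha
  have h2 := h.two
  have h3 := h.pos
  refine h.ncol ⟨L, ?_, fun v hv => ?_⟩
  · rw [e]; exact valid_singleton subset_rfl
  · have := h.size v hv
    omega

theorem mainK : ∃ C : ℕ, ∀ k m : ℕ, 0 < k → C * k ≤ m → ∀ (V : Type) [DecidableEq V]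
    (G : SimpleGraph V) [DecidableRel G.Adj], MinorFree G → ∀ (H : Finset V) (L : V → Finset ℕ),
    (∀ v, (L v).card = 5 * m - k) → Col G H L m := by
  obtain ⟨N, hbN, hiso⟩ := iso (3 * 607844 * 100000000 + 607844)
    (3 * 607844 * 100000000 + 2 * 303921)
  obtain ⟨M, hM⟩ := thmA N ((N + 1) * 2 ^ N + 1)
  refine ⟨M + (N + 1) * (M + 2 ^ N) + 2, fun k m hk hkm V _ G _ hG H L hL => ?_⟩
  classical
  have hmk : M + (N + 1) * k * (M + 2 ^ N) + 2 * k ≤ m := by
    have h1 : M * 1 ≤ M * k := Nat.mul_le_mul_left M hk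
    have h2 : (M + (N + 1) * (M + 2 ^ N) + 2) * k =
      M * k + (N + 1) * k * (M + 2 ^ N) + 2 * k := by ring
    omega
  by_contra hcol
  obtain ⟨V0, hV0, hmin⟩ := exists_min_image
    (H.powerset.filter (fun S => ¬ Col G S L m)) Finset.card
    ⟨H, mem_filter.2 ⟨mem_powerset_self H, hcol⟩⟩
  obtain ⟨hV0H, hnc⟩ := mem_filter.1 hV0
  rw [mem_powerset] at hV0H
  have h : MinCexK G V0 L m k :=
    { mf := hG
      size := fun v _ => by rw [hL v]; omega
      two := by omega
      pos := hk
      ncol := hnc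
      min := fun S hS hne => by
        by_contra hh
        have h1 := hmin S (mem_filter.2 ⟨mem_powerset.2 (hS.trans hV0H), hh⟩)
        exact hne (eq_of_subset_of_card_le hS h1) }
  have hR := amp (hM V G hG) ((N + 1) * k)
  have split : ∀ T : Finset V, (T \ Qset G V0).card + (T ∩ Qset G V0).card = T.card :=
    fun T => card_sdiff_add_card_inter T _
  set D : Finset V → ℤ := fun T => 607844 * (100000000 * odef G V0 T +
    ((T ∩ Qset G V0).card : ℤ)) - 607843 * (T.card : ℤ) with hD
  have hbd : ∀ T ⊆ V0, ∀ Y ⊆ V0, Disjoint T Y →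
      (∀ u ∈ T, ∀ w ∈ V0, G.Adj u w → w ∈ T ∨ w ∈ Y) →
      D T ≤ ((3 * 607844 * 100000000 + 2 * 303921 : ℕ) : ℤ) * (Y.card : ℤ) - T.card := by
    intro T hT Y hY hd hn
    have h1 := odef_bound hG hd hn
    have h2 := qbound hG hT hY hd hn
    have h3 := split T
    simp only [hD]
    push_cast
    omega
  have key := hiso V G hG V0 D h.conn (by simp [hD, odef_empty])
    (fun S hS T hT hd hn => by
      simp only [hD]
      rw [odef_union hS hT hd hn, union_inter_distrib_right, card_union_of_disjoint hd,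
        card_union_of_disjoint
          (disjoint_of_subset_left inter_subset_left (disjoint_of_subset_right inter_subset_left hd))]
      push_cast; ring)
    (fun T hT v hv hvT => by
      have h1 := odef_insert (G := G) hT hv hvT
      have h2 : (T ∩ Qset G V0).card ≤ (insert v T ∩ Qset G V0).card :=
        card_le_card (inter_subset_inter (subset_insert v T) subset_rfl)
      simp only [hD]
      rw [card_insert_of_notMem hvT]
      push_cast
      omega)
    hbd
    (fun W hW hc hN => by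
      have h1 := hypK h hR (by omega) hW hc hN
      have h3 := split W
      simp only [hD]
      omega)
  obtain ⟨v, hv⟩ := h.conn.1
  have e : V0 \ V0.erase v = {v} := by
    ext x; simp only [mem_sdiff, mem_erase, mem_singleton]
    constructor
    · rintro ⟨a, b⟩
      by_contra hne
      exact b ⟨hne, a⟩
    · rintro rfl
      exact ⟨hv, fun hh => hh.1 rfl⟩
  have hc : Conn G (V0 \ V0.erase v) := by rw [e]; exact conn_singleton v
  have h1 := key _ (erase_subset v V0) hc
  have h2 := hbd _ (erase_subset v V0) {v} (singleton_subset_iff.2 hv)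
    (disjoint_singleton_right.2 (notMem_erase v V0)) (fun u _ w hw _ => by
      by_cases hwv : w = v
      · exact Or.inr (mem_singleton.2 hwv)
      · exact Or.inl (mem_erase.2 ⟨hwv, hw⟩))
  rw [card_singleton] at h2
  have h3 : (V0.erase v).card ≤ N := by
    push_cast at h2
    omega
  have h4 := hypK h hR (by omega) (erase_subset v V0) hc h3
  have h5 := odef_erase hG hv h.two_le
  omega

end Pool.Agent.PL5
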